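import Mathlib
import Pool.Agent.H531R3.SolvEq

set_option autoImplicit false

namespace Pool.Agent.Results.MP_82f054_al.LengthThree

universe u

open H531R3

/-- The normal form `x p x⁻¹ q x r = 1`. -/
theorem normal_form {G : Type u} [Group G] (A : Subgroup G) [A.Normal]
    (hA : ∀ a ∈ A, ∀ b ∈ A, a * b = b * a) (n : ℕ) (hn : derivedSeries G n ≤ A)
    (p q r : G) (hpq : p * q * p⁻¹ * q⁻¹ ∈ A) (hpr : p * r * p⁻¹ * r⁻¹ ∈ A)
    (hqr : q * r * q⁻¹ * r⁻¹ ∈ A) :
    ∃ (H : Type u) (_ : Group H), derivedSeries H (n + 2) = ⊥ ∧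
      ∃ ι : G →* H, Function.Injective ι ∧
        ∃ x : H, x * ι p * x⁻¹ * ι q * x * ι r = 1 := by
  have toQ : ∀ a b : G, a * b * a⁻¹ * b⁻¹ ∈ A →
      ((a : G ⧸ A)) * (b : G ⧸ A) = (b : G ⧸ A) * (a : G ⧸ A) := by
    intro a b h
    have h1 := (QuotientGroup.eq_one_iff (N := A) _).2 h
    simp only [QuotientGroup.mk_mul, QuotientGroup.mk_inv] at h1
    rw [mul_inv_eq_one, mul_inv_eq_iff_eq_mul] at h1
    exact h1
  have c1 := toQ p q hpq
  have c2 := toQ p r hpr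
  have c3 := toQ q r hqr
  set P : G ⧸ A := (p : G ⧸ A) with hP
  set R : G ⧸ A := (r : G ⧸ A) with hR
  set S : G ⧸ A := (q : G ⧸ A) with hS
  have cP : Commute P (P * S * R) := ((Commute.refl P).mul_right c1).mul_right c2
  have cS : Commute S (P * S * R) := (((show Commute S P from c1.symm).mul_right
    (Commute.refl S))).mul_right c3
  have cP' : P * (P * S * R)⁻¹ = (P * S * R)⁻¹ * P := cP.inv_right
  obtain ⟨H, _, hH, ι, hι, y, hy⟩ := main_solv A n hn hA
    ((p * q * r)⁻¹ * p * ((p * q * r)⁻¹)⁻¹) q ((p * q * r)⁻¹ * r) (by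
      rw [← QuotientGroup.eq_one_iff]
      simp only [QuotientGroup.mk_mul, QuotientGroup.mk_inv]
      rw [← hP, ← hR, ← hS, ← cP']
      rw [mul_inv_eq_one, mul_inv_eq_iff_eq_mul]
      simp only [inv_inv, inv_mul_cancel_right]
      exact c1) (by
      rw [← QuotientGroup.eq_one_iff]
      simp only [QuotientGroup.mk_mul, QuotientGroup.mk_inv]
      rw [← hP, ← hR, ← hS, ← cP']
      simp only [inv_inv, inv_mul_cancel_right]
      have cS' : S * (P * S * R)⁻¹ = (P * S * R)⁻¹ * S := cS.inv_right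
      rw [← mul_assoc, mul_assoc P S, cS', ← mul_assoc, cP', mul_assoc, mul_assoc,
        ← mul_assoc P S R, inv_mul_cancel])
  refine ⟨H, inferInstance, hH, ι, hι, y * ι ((p * q * r)⁻¹), ?_⟩
  rw [← hy]
  simp only [map_mul, map_inv]
  group

/-- Let `A` be an abelian normal subgroup of a group `G` containing the `n`-th derived subgroup
of `G`.  Every unimodular equation `g₀ x^{e₀} g₁ x^{e₁} g₂ x^{e₂} g₃ = 1` of length three
(`eᵢ = ±1`, `e₀ + e₁ + e₂ = ±1`) over `G` whose coefficients commute modulo `A` has a solution in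
a solvable group of derived length at most `n + 2` containing `G`.
(For metabelian `G` take `A` the commutator subgroup and `n = 1`.) -/
theorem result {G : Type u} [Group G] (A : Subgroup G) [A.Normal]
    (hA : ∀ a ∈ A, ∀ b ∈ A, a * b = b * a) (n : ℕ) (hn : derivedSeries G n ≤ A)
    (g : Fin 4 → G) (hg : ∀ i j, g i * g j * (g i)⁻¹ * (g j)⁻¹ ∈ A)
    (e : Fin 3 → ℤ) (he : ∀ i, e i = 1 ∨ e i = -1)
    (hs : e 0 + e 1 + e 2 = 1 ∨ e 0 + e 1 + e 2 = -1) :
    ∃ (H : Type u) (_ : Group H), derivedSeries H (n + 2) = ⊥ ∧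
      ∃ φ : G →* H, Function.Injective φ ∧
        ∃ h : H, Monoid.Coprod.lift φ (FreeGroup.lift (fun _ : Unit => h))
          (Monoid.Coprod.inl (g 0) * Monoid.Coprod.inr (FreeGroup.of ()) ^ (e 0) *
            Monoid.Coprod.inl (g 1) * Monoid.Coprod.inr (FreeGroup.of ()) ^ (e 1) *
            Monoid.Coprod.inl (g 2) * Monoid.Coprod.inr (FreeGroup.of ()) ^ (e 2) *
            Monoid.Coprod.inl (g 3)) = 1 := by
  -- commutation modulo `A`, also for products
  have toQ : ∀ a b : G, a * b * a⁻¹ * b⁻¹ ∈ A ↔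
      Commute (a : G ⧸ A) (b : G ⧸ A) := by
    intro a b
    rw [← QuotientGroup.eq_one_iff]
    simp only [QuotientGroup.mk_mul, QuotientGroup.mk_inv]
    rw [mul_inv_eq_one, mul_inv_eq_iff_eq_mul]
    exact Iff.rfl
  have hq : ∀ i j, Commute ((g i : G ⧸ A)) (g j : G ⧸ A) := fun i j => (toQ _ _).1 (hg i j)
  have c30 : ∀ j, (g 3 * g 0) * g j * (g 3 * g 0)⁻¹ * (g j)⁻¹ ∈ A := by
    intro j
    rw [toQ, QuotientGroup.mk_mul]
    exact (hq 3 j).mul_left (hq 0 j)
  have c30' : ∀ j, g j * (g 3 * g 0) * (g j)⁻¹ * (g 3 * g 0)⁻¹ ∈ A := by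
    intro j
    rw [toQ, QuotientGroup.mk_mul]
    exact (hq j 3).mul_right (hq j 0)
  have eval : ∀ (H : Type u) [Group H] (φ : G →* H) (h : H),
      Monoid.Coprod.lift φ (FreeGroup.lift (fun _ : Unit => h))
          (Monoid.Coprod.inl (g 0) * Monoid.Coprod.inr (FreeGroup.of ()) ^ (e 0) *
            Monoid.Coprod.inl (g 1) * Monoid.Coprod.inr (FreeGroup.of ()) ^ (e 1) *
            Monoid.Coprod.inl (g 2) * Monoid.Coprod.inr (FreeGroup.of ()) ^ (e 2) *
            Monoid.Coprod.inl (g 3)) =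
        φ (g 0) * h ^ (e 0) * φ (g 1) * h ^ (e 1) * φ (g 2) * h ^ (e 2) * φ (g 3) := by
    intro H _ φ h
    simp only [map_mul, map_zpow, Monoid.Coprod.lift_apply_inl, Monoid.Coprod.lift_apply_inr,
      FreeGroup.lift_apply_of]
  have rot : ∀ (H : Type u) [Group H] (a b : H), b * a = 1 → a * b = 1 := by
    intro H _ a b h
    have := eq_inv_of_mul_eq_one_left h
    rw [this, mul_inv_cancel]
  rcases he 0 with h0 | h0 <;> rcases he 1 with h1 | h1 <;> rcases he 2 with h2 | h2 <;>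
    simp only [h0, h1, h2] at hs <;> try (exfalso; omega)
  · -- + + -
    obtain ⟨H, _, hH, φ, hφ, x, hx⟩ := normal_form A hA n hn (g 2) (g 3 * g 0) (g 1)
      (c30' 2) (hg 2 1) (c30 1)
    refine ⟨H, inferInstance, hH, φ, hφ, x, ?_⟩
    rw [eval, h0, h1, h2]
    simp only [zpow_one, zpow_neg]
    rw [map_mul] at hx
    have := rot H (φ (g 0) * x * φ (g 1)) (x * φ (g 2) * x⁻¹ * φ (g 3)) (by
      rw [← hx]; group)
    rw [← this]; group
  · -- + - +
    obtain ⟨H, _, hH, φ, hφ, x, hx⟩ := normal_form A hA n hn (g 1) (g 2) (g 3 * g 0)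
      (hg 1 2) (c30' 1) (c30' 2)
    refine ⟨H, inferInstance, hH, φ, hφ, x, ?_⟩
    rw [eval, h0, h1, h2]
    simp only [zpow_one, zpow_neg]
    rw [map_mul] at hx
    have := rot H (φ (g 0)) (x * φ (g 1) * x⁻¹ * φ (g 2) * x * φ (g 3)) (by
      rw [← hx]; group)
    rw [← this]; group
  · -- + - -
    obtain ⟨H, _, hH, φ, hφ, x, hx⟩ := normal_form A hA n hn (g 3 * g 0) (g 1) (g 2)
      (c30 1) (c30 2) (hg 1 2)
    refine ⟨H, inferInstance, hH, φ, hφ, x⁻¹, ?_⟩
    rw [eval, h0, h1, h2]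
    simp only [zpow_one, zpow_neg, inv_inv]
    rw [map_mul] at hx
    have := rot H (φ (g 0) * x⁻¹ * φ (g 1) * x * φ (g 2)) (x * φ (g 3)) (by
      rw [← hx]; group)
    rw [← this]; group
  · -- - + +
    obtain ⟨H, _, hH, φ, hφ, x, hx⟩ := normal_form A hA n hn (g 3 * g 0) (g 1) (g 2)
      (c30 1) (c30 2) (hg 1 2)
    refine ⟨H, inferInstance, hH, φ, hφ, x, ?_⟩
    rw [eval, h0, h1, h2]
    simp only [zpow_one, zpow_neg]
    rw [map_mul] at hx
    have := rot H (φ (g 0) * x⁻¹ * φ (g 1) * x * φ (g 2)) (x * φ (g 3)) (by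
      rw [← hx]; group)
    rw [← this]; group
  · -- - + -
    obtain ⟨H, _, hH, φ, hφ, x, hx⟩ := normal_form A hA n hn (g 1) (g 2) (g 3 * g 0)
      (hg 1 2) (c30' 1) (c30' 2)
    refine ⟨H, inferInstance, hH, φ, hφ, x⁻¹, ?_⟩
    rw [eval, h0, h1, h2]
    simp only [zpow_one, zpow_neg, inv_inv]
    rw [map_mul] at hx
    have := rot H (φ (g 0)) (x * φ (g 1) * x⁻¹ * φ (g 2) * x * φ (g 3)) (by
      rw [← hx]; group)
    rw [← this]; group
  · -- - - +
    obtain ⟨H, _, hH, φ, hφ, x, hx⟩ := normal_form A hA n hn (g 2) (g 3 * g 0) (g 1)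
      (c30' 2) (hg 2 1) (c30 1)
    refine ⟨H, inferInstance, hH, φ, hφ, x⁻¹, ?_⟩
    rw [eval, h0, h1, h2]
    simp only [zpow_one, zpow_neg, inv_inv]
    rw [map_mul] at hx
    have := rot H (φ (g 0) * x * φ (g 1)) (x * φ (g 2) * x⁻¹ * φ (g 3)) (by
      rw [← hx]; group)
    rw [← this]; group

end Pool.Agent.Results.MP_82f054_al.LengthThree
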